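import Pool.Agent.J4.H49.DK.SmallOdd
import Pool.Agent.J4.H49.DK.LowerOdd
import Pool.Agent.Helper91.CK.Ring

set_option autoImplicit false

namespace Pool.Agent.Results.MP_bb98d0_co.JudiciousLargeDegree

open Finset Pool.Agent.Helper91.CK Pool.Agent.J4.H49.DK

open Classical in
/-- `e(G)`: the number of edges -/
noncomputable def numEdges {V : Type} [Fintype V] (G : SimpleGraph V) : ℕ :=
  G.edgeFinset.card

open Classical in
/-- `e(S)`: the number of edges with both ends in the vertex set `S` -/
noncomputable def inside {V : Type} [Fintype V] (G : SimpleGraph V) (S : Finset V) : ℕ :=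
  (G.edgeFinset.filter (fun e => ∀ v ∈ e, v ∈ S)).card

open Classical in
/-- `g(G)`: the least value of `max (e(S), e(complement of S))` over all vertex sets `S` -/
noncomputable def judicious {V : Type} [Fintype V] (G : SimpleGraph V) : ℕ :=
  (Finset.univ : Finset (Finset V)).inf' ⟨∅, Finset.mem_univ _⟩
    (fun S => max (inside G S) (inside G Sᶜ))

open Classical in
/-- `k`-regular, no `K_{k+1}`, at least one edge -/
def InClass (k : ℕ) {V : Type} [Fintype V] (G : SimpleGraph V) : Prop :=
  G.IsRegularOfDegree k ∧ G.CliqueFree (k + 1) ∧ 0 < numEdges G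

/-- all values `g(G) / e(G)` over the class -/
def ratios (k : ℕ) : Set ℝ :=
  {r | ∃ (V : Type) (_ : Fintype V) (G : SimpleGraph V),
    InClass k G ∧ r = (judicious G : ℝ) / (numEdges G : ℝ)}

/-- the constant `d_k` -/
noncomputable def d (k : ℕ) : ℝ := sSup (ratios k)

/-- the value of `d_k` -/
noncomputable def val (k : ℕ) : ℝ :=
  if Even k then 1 / 4 - ((k : ℝ) + 8) / (12 * k * (k + 1))
  else 1 / 4 - (3 * (k : ℝ) + 11) / (12 * k * (k + 1))

section
variable {V : Type} [Fintype V]

lemma judicious_le (G : SimpleGraph V) (S T : Finset V) (hT : ∀ x, x ∈ T ↔ x ∉ S) :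
    judicious G ≤ max (inside G S) (inside G T) := by
  classical
  have h : T = Sᶜ := by
    ext x
    rw [hT, Finset.mem_compl]
  rw [h]
  unfold judicious
  convert Finset.inf'_le (fun S => max (inside G S) (inside G Sᶜ)) (Finset.mem_univ S) using 1

lemma judicious_eq (G : SimpleGraph V) :
    ∃ S T : Finset V, (∀ x, x ∈ T ↔ x ∉ S) ∧ judicious G = max (inside G S) (inside G T) := by
  classical
  obtain ⟨S, _, hS⟩ := Finset.exists_mem_eq_inf' (s := (univ : Finset (Finset V)))
    ⟨∅, Finset.mem_univ _⟩ (fun S => max (inside G S) (inside G Sᶜ))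
  refine ⟨S, Sᶜ, fun x => Finset.mem_compl, ?_⟩
  rw [← hS]
  unfold judicious
  congr

open Classical in
lemma inside_le (G : SimpleGraph V) (S : Finset V) : inside G S ≤ numEdges G :=
  Finset.card_le_card (Finset.filter_subset _ _)

lemma judicious_le_edges (G : SimpleGraph V) : judicious G ≤ numEdges G := by
  refine (judicious_le G ∅ univ (by simp)).trans ?_
  exact max_le (inside_le G _) (inside_le G _)

lemma ad_inst (G : SimpleGraph V) (i1 i2 : DecidableRel G.Adj) (x y : V) :
    @ad V G i1 x y = @ad V G i2 x y := by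
  unfold ad
  by_cases h : G.Adj x y <;> simp [h]

/-- the graph of the edges inside `S` -/
def sub (G : SimpleGraph V) (S : Finset V) : SimpleGraph V where
  Adj x y := G.Adj x y ∧ x ∈ S ∧ y ∈ S
  symm := ⟨fun _ _ h => ⟨h.1.symm, h.2.2, h.2.1⟩⟩
  loopless := ⟨fun x h => G.loopless.irrefl x h.1⟩

open Classical in
lemma inside_eq (G : SimpleGraph V) (S : Finset V) :
    2 * (inside G S : ℤ) = ∑ x ∈ S, ∑ y ∈ S, (ad G x y : ℤ) := by
  have h1 := (sub G S).sum_degrees_eq_twice_card_edges
  have h2 : (sub G S).edgeFinset = G.edgeFinset.filter (fun e => ∀ v ∈ e, v ∈ S) := by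
    ext e
    induction e using Sym2.ind with
    | _ x y =>
      simp only [SimpleGraph.mem_edgeFinset, SimpleGraph.mem_edgeSet, Finset.mem_filter,
        Sym2.mem_iff, forall_eq_or_imp, forall_eq]
      rfl
  have h3 : ∀ x, (sub G S).degree x = if x ∈ S then ∑ y ∈ S, ad G x y else 0 := by
    intro x
    rw [← SimpleGraph.card_neighborFinset_eq_degree]
    by_cases hx : x ∈ S
    · rw [if_pos hx]
      unfold ad
      rw [← Finset.card_filter]
      congr 1
      ext y
      simp only [SimpleGraph.mem_neighborFinset, Finset.mem_filter]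
      exact ⟨fun h => ⟨h.2.2, h.1⟩, fun h => ⟨h.2, hx, h.1⟩⟩
    · rw [if_neg hx, Finset.card_eq_zero]
      ext y
      simp only [SimpleGraph.mem_neighborFinset, Finset.notMem_empty, iff_false]
      exact fun h => hx h.2.1
  simp_rw [h3] at h1
  rw [Finset.sum_ite_mem, Finset.univ_inter, h2] at h1
  unfold inside
  exact_mod_cast h1.symm

lemma inside_formula {k : ℕ} [DecidableEq V] (G : SimpleGraph V) [i : DecidableRel G.Adj]
    (hreg : ∀ v, ∑ y, ad G v y = k) (S : Finset V) :
    8 * (inside G S : ℤ) = (Fintype.card V : ℤ) * k + 2 * k * ∑ x, sg S x -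
      F (A G) univ (sg S) := by
  have h0 : ∀ x y, @ad V G (fun a b => Classical.propDecidable _) x y = @ad V G i x y :=
    ad_inst G _ _
  have h1 := inside_eq G S
  simp_rw [h0] at h1
  have hsg : sg_Sg S = sg_Sg S := rfl
  have h2 : ∑ x, ∑ y, A G x y * (1 + sg S x) * (1 + sg S y) =
      4 * ∑ x ∈ S, ∑ y ∈ S, (ad G x y : ℤ) := by
    have e1 : ∀ x, ∑ y, A G x y * (1 + sg S x) * (1 + sg S y) =
        if x ∈ S then 4 * ∑ y ∈ S, (ad G x y : ℤ) else 0 := by
      intro x
      by_cases hx : x ∈ S
      · rw [if_pos hx, Finset.mul_sum, ← Finset.sum_subset (Finset.subset_univ S)]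
        · apply Finset.sum_congr rfl
          intro y hy
          simp only [sg, if_pos hx, if_pos hy, A]
          ring
        · intro y _ hy
          simp [sg, hy]
      · rw [if_neg hx]
        apply Finset.sum_eq_zero
        intro y _
        simp [sg, hx]
    simp_rw [e1]
    rw [Finset.sum_ite_mem, Finset.univ_inter, Finset.mul_sum]
  have h3 : ∑ x, ∑ y, A G x y * (1 + sg S x) * (1 + sg S y) =
      (Fintype.card V : ℤ) * k + 2 * k * ∑ x, sg S x - F (A G) univ (sg S) := by
    have e1 : ∀ x, ∑ y, A G x y * (1 + sg S x) * (1 + sg S y) =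
        ∑ y, A G x y + (∑ y, A G x y) * sg S x + ∑ y, A G x y * sg S y +
          ∑ y, A G x y * sg S x * sg S y := by
      intro x
      rw [Finset.sum_mul, ← Finset.sum_add_distrib, ← Finset.sum_add_distrib,
        ← Finset.sum_add_distrib]
      apply Finset.sum_congr rfl
      intro y _
      ring
    simp_rw [e1]
    rw [Finset.sum_add_distrib, Finset.sum_add_distrib, Finset.sum_add_distrib]
    have e2 : ∑ x, ∑ y, A G x y * sg S y = k * ∑ x, sg S x := by
      rw [Finset.sum_comm, Finset.mul_sum]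
      apply Finset.sum_congr rfl
      intro y _
      rw [← Finset.sum_mul]
      have : ∑ x, A G x y = k := by
        simp_rw [A_symm _ y]
        exact A_row hreg y
      rw [this]
    have e3 : ∑ x, (∑ y, A G x y) * sg S x = k * ∑ x, sg S x := by
      rw [Finset.mul_sum]
      apply Finset.sum_congr rfl
      intro x _
      rw [A_row hreg x]
    have e4 : ∑ x, ∑ y, A G x y = (Fintype.card V : ℤ) * k := by
      simp_rw [A_row hreg]
      simp
    rw [e2, e3, e4]
    unfold F
    ring
  linarith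

lemma sg_compl [DecidableEq V] (S T : Finset V) (hT : ∀ x, x ∈ T ↔ x ∉ S) :
    sg T = fun x => - sg S x := by
  funext x
  unfold sg
  by_cases h : x ∈ S
  · rw [if_neg (by rw [hT]; simpa using h), if_pos h]
  · rw [if_pos (by rw [hT]; exact h), if_neg h]
    rfl

open Classical in
lemma pos_of_reg {k : ℕ} (hk : 0 < k) [Nonempty V] (G : SimpleGraph V)
    (h : G.IsRegularOfDegree k) : 0 < numEdges G := by
  unfold numEdges
  have h1 := G.sum_degrees_eq_twice_card_edges
  rw [Finset.sum_congr rfl (fun v _ => h v)] at h1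
  rw [Finset.sum_const, Finset.card_univ, smul_eq_mul] at h1
  have h2 : 0 < Fintype.card V * k := Nat.mul_pos Fintype.card_pos hk
  omega

end

lemma reg_ad {k : ℕ} {V : Type} [Fintype V] [DecidableEq V] (G : SimpleGraph V)
    [DecidableRel G.Adj] (h : InClass k G) (v : V) : ∑ y, ad G v y = k := by
  have h1 := h.1 v
  rw [← h1, ← SimpleGraph.card_neighborFinset_eq_degree]
  unfold ad
  rw [← Finset.card_filter]
  congr 1
  ext y
  simp

lemma edges_ad {k : ℕ} {V : Type} [Fintype V] (G : SimpleGraph V)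
    (h : InClass k G) : 2 * numEdges G = Fintype.card V * k := by
  classical
  unfold numEdges
  rw [← G.sum_degrees_eq_twice_card_edges]
  have : ∀ v, G.degree v = k := by
    intro v
    have := h.1 v
    convert this
  rw [Finset.sum_congr rfl (fun v _ => this v)]
  simp

/-- eight times the judicious value is at most what any sign vector gives -/
lemma judicious_upper {k : ℕ} {V : Type} [Fintype V] [DecidableEq V] (G : SimpleGraph V)
    [DecidableRel G.Adj] (hreg : ∀ v, ∑ y, ad G v y = k) {σ : V → ℤ} (hσ : Sg σ) :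
    8 * (judicious G : ℤ) ≤ (Fintype.card V : ℤ) * k + 2 * k * |∑ x, σ x| -
      F (A G) univ σ := by
  set S : Finset V := univ.filter (fun v => σ v = 1) with hS
  have hσS : sg S = σ := by
    funext v
    unfold sg
    rcases hσ v with h | h
    · rw [if_pos (by simp [hS, h]), h]
    · rw [if_neg (by simp [hS, h]), h]
  have hT : ∀ x, x ∈ Sᶜ ↔ x ∉ S := fun x => Finset.mem_compl
  have h1 := inside_formula G hreg S
  have h2 := inside_formula G hreg Sᶜ
  rw [sg_compl S Sᶜ hT, neg_F, sum_neg_fun] at h2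
  rw [hσS] at h1 h2
  have h3 : (judicious G : ℤ) ≤ max (inside G S : ℤ) (inside G Sᶜ : ℤ) := by
    exact_mod_cast judicious_le G S Sᶜ hT
  have hk : (0 : ℤ) ≤ 2 * k := by positivity
  have h4 := mul_le_mul_of_nonneg_left (le_abs_self (∑ x, σ x)) hk
  have h5 := mul_le_mul_of_nonneg_left (neg_le_abs (∑ x, σ x)) hk
  rcases le_total (inside G S : ℤ) (inside G Sᶜ : ℤ) with h | h
  · rw [max_eq_right h] at h3
    linarith
  · rw [max_eq_left h] at h3
    linarith

/-- eight times the judicious value is at least what the best sign vector gives -/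
lemma judicious_lower {k : ℕ} {V : Type} [Fintype V] [DecidableEq V] (G : SimpleGraph V)
    [DecidableRel G.Adj] (hreg : ∀ v, ∑ y, ad G v y = k) (B : ℤ)
    (hB : ∀ σ : V → ℤ, Sg σ → F (A G) univ σ - 2 * k * |∑ x, σ x| ≤ B) :
    (Fintype.card V : ℤ) * k - B ≤ 8 * (judicious G : ℤ) := by
  obtain ⟨S, T, hT, hS⟩ := judicious_eq G
  have h1 := inside_formula G hreg S
  have h2 := inside_formula G hreg T
  rw [sg_compl S T hT, neg_F, sum_neg_fun] at h2
  have h3 := hB (sg S) (sg_Sg S)
  have h4 : (inside G S : ℤ) ≤ judicious G := by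
    rw [hS]
    exact_mod_cast le_max_left _ _
  have h5 : (inside G T : ℤ) ≤ judicious G := by
    rw [hS]
    exact_mod_cast le_max_right _ _
  rcases le_total 0 (∑ x, sg S x) with h | h
  · rw [abs_of_nonneg h] at h3
    linarith
  · rw [abs_of_nonpos h] at h3
    linarith

lemma card_ge {k : ℕ} {V : Type} [Fintype V] [DecidableEq V] (G : SimpleGraph V)
    [DecidableRel G.Adj] (hreg : ∀ v, ∑ y, ad G v y = k) (hcf : G.CliqueFree (k + 1))
    (v0 : V) : k + 2 ≤ Fintype.card V := by
  have h1 : ∀ v w : V, v ≠ w → k + (if G.Adj v w then 0 else 1) + 1 ≤ Fintype.card V := by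
    intro v w hvw
    have e1 : ∑ y, (ad G v y + (if y = v then 1 else 0) +
        (if y = w then (if G.Adj v w then 0 else 1) else 0)) ≤ ∑ y : V, 1 := by
      apply Finset.sum_le_sum
      intro y _
      unfold ad
      by_cases h1 : y = v
      · subst h1
        simp [hvw]
      · by_cases h2 : y = w
        · subst h2
          by_cases h3 : G.Adj v y <;> simp [h3, h1]
        · simp only [h1, h2, if_false]
          split_ifs <;> simp
    rw [Finset.sum_add_distrib, Finset.sum_add_distrib, hreg v, Finset.sum_ite_eq',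
      Finset.sum_ite_eq'] at e1
    simp only [Finset.mem_univ, if_true, Finset.sum_const, Finset.card_univ, smul_eq_mul,
      mul_one] at e1
    omega
  by_contra hcon
  have h2 : k + 1 ≤ Fintype.card V := by
    have e1 : ∑ y, (ad G v0 y + (if y = v0 then 1 else 0)) ≤ ∑ y : V, 1 := by
      apply Finset.sum_le_sum
      intro y _
      unfold ad
      by_cases h1 : y = v0
      · subst h1
        simp
      · simp only [h1, if_false]
        split_ifs <;> simp
    rw [Finset.sum_add_distrib, hreg v0, Finset.sum_ite_eq'] at e1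
    simp only [Finset.mem_univ, if_true, Finset.sum_const, Finset.card_univ, smul_eq_mul,
      mul_one] at e1
    exact e1
  have h3 : Fintype.card V = k + 1 := by omega
  apply hcf univ
  rw [SimpleGraph.isNClique_iff, SimpleGraph.isClique_iff]
  refine ⟨?_, by rw [Finset.card_univ, h3]⟩
  intro v _ w _ hvw
  by_contra hna
  have := h1 v w hvw
  rw [if_neg hna] at this
  omega

lemma exists_vertex {k : ℕ} {V : Type} [Fintype V] (G : SimpleGraph V) (h : InClass k G) :
    Nonempty V := by
  by_contra hne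
  rw [not_nonempty_iff] at hne
  have h1 := edges_ad G h
  have h2 : Fintype.card V = 0 := Fintype.card_eq_zero
  have h3 := h.2.2
  rw [h2] at h1
  omega

/-- odd degree -/
lemma upper_odd {k : ℕ} (hk : 3000 ≤ k) (hko : Odd k) {V : Type} [Fintype V] (G : SimpleGraph V)
    (h : InClass k G) :
    3 * ((k : ℤ) + 1) * (8 * (judicious G : ℤ)) ≤
      3 * ((k : ℤ) + 1) * (Fintype.card V * k) - (3 * k + 11) * Fintype.card V := by
  classical
  have hreg := reg_ad G h
  obtain ⟨v0⟩ := exists_vertex G h
  have hn := card_ge G hreg h.2.1 v0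
  have hVe : Even (Fintype.card V) := by
    have h1 := edges_ad G h
    have h2 : Even (Fintype.card V * k) := ⟨numEdges G, by omega⟩
    rw [Nat.even_mul] at h2
    rcases h2 with h2 | h2
    · exact h2
    · exact absurd h2 (Nat.not_even_iff_odd.mpr hko)
  obtain ⟨σ0, hs0, hF0⟩ := lower_odd hk hko hreg h.2.1 hVe
  have hFA : F (fun x y => (ad G x y : ℤ)) univ σ0 = F (A G) univ σ0 := rfl
  rw [hFA] at hF0
  set n : ℤ := (Fintype.card V : ℤ) with hnd
  have hk' : (3000 : ℤ) ≤ k := by exact_mod_cast hk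
  have hn' : (k : ℤ) + 2 ≤ n := by
    rw [hnd]
    exact_mod_cast hn
  obtain ⟨σ, g1, g2, g3⟩ := rb_odd (by omega) hko (by omega) hVe hreg
    (min (F (A G) univ σ0 - 2 * |∑ x, σ0 x|) (2 * n)) (min_le_right _ _) σ0 hs0 (by
      have := min_le_left (F (A G) univ σ0 - 2 * |∑ x, σ0 x|) (2 * n)
      linarith)
  have h3 := judicious_upper G hreg g1
  rw [g3, abs_zero, mul_zero, add_zero, ← hnd] at h3
  have h4 : (3 * (k : ℤ) + 11) * n ≤ 3 * ((k : ℤ) + 1) * F (A G) univ σ := by
    rcases le_total (F (A G) univ σ0 - 2 * |∑ x, σ0 x|) (2 * n) with h5 | h5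
    · rw [min_eq_left h5] at g2
      have h6 := mul_le_mul_of_nonneg_left g2 (show (0 : ℤ) ≤ 3 * ((k : ℤ) + 1) by positivity)
      linarith
    · rw [min_eq_right h5] at g2
      have h6 := mul_le_mul_of_nonneg_left g2 (show (0 : ℤ) ≤ 3 * ((k : ℤ) + 1) by positivity)
      nlinarith
  have h5 := mul_le_mul_of_nonneg_left h3 (show (0 : ℤ) ≤ 3 * ((k : ℤ) + 1) by positivity)
  linarith

/-- even degree -/
lemma upper_even {k : ℕ} (hk : 1000 ≤ k) (hke : Even k) {V : Type} [Fintype V]
    (G : SimpleGraph V) (h : InClass k G) :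
    3 * ((k : ℤ) + 1) * (8 * (judicious G : ℤ)) ≤
      3 * ((k : ℤ) + 1) * (Fintype.card V * k) - (k + 8) * Fintype.card V := by
  classical
  have hreg := reg_ad G h
  obtain ⟨v0⟩ := exists_vertex G h
  have hn := card_ge G hreg h.2.1 v0
  have hk' : (1000 : ℤ) ≤ k := by exact_mod_cast hk
  have hk3 : (0 : ℤ) ≤ 3 * ((k : ℤ) + 1) := by positivity
  by_cases hsmall : Odd (Fintype.card V) ∧ Fintype.card V < 3 * (k + 1)
  · -- small odd order
    obtain ⟨K, hK⟩ := hke
    obtain ⟨e, he⟩ := hsmall.1
    have hK2 : k = 2 * K := by omega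
    subst hK2
    have hJ : ∃ J, Fintype.card V = 2 * K + 1 + 2 * J := ⟨e - K, by omega⟩
    obtain ⟨J, hJ⟩ := hJ
    obtain ⟨σ, g1, g2, g3⟩ := small_odd (by omega) hreg (show 1 ≤ J by omega)
      (show J ≤ 2 * K by omega) hJ
    have h3 := judicious_upper G hreg g1
    rw [g2, abs_one] at h3
    have h5 := mul_le_mul_of_nonneg_left h3 hk3
    have hJz : (Fintype.card V : ℤ) = 2 * K + 1 + 2 * J := by
      rw [hJ]; push_cast; ring
    rw [← hJz] at g3
    push_cast at h5 ⊢
    linarith
  · obtain ⟨σ0, hs0, hF0⟩ := lower hk hreg h.2.1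
    have hFA : F (fun x y => (ad G x y : ℤ)) univ σ0 = F (A G) univ σ0 := rfl
    rw [hFA] at hF0
    have hq : 6 * (((k + 1) / 2 : ℕ) : ℤ) + 8 = 3 * k + 8 := by
      obtain ⟨K, hK⟩ := hke
      omega
    rw [hq] at hF0
    set n : ℤ := (Fintype.card V : ℤ) with hnd
    have hn' : (k : ℤ) + 2 ≤ n := by
      rw [hnd]
      exact_mod_cast hn
    obtain ⟨σ, g1, g2, g3, g4⟩ := rb_even (by omega) hke (by omega) hreg
      (min (F (A G) univ σ0) (2 * n)) ((min_le_right _ _).trans (by linarith)) σ0 hs0
      (min_le_left _ _)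
    have h3 := judicious_upper G hreg g1
    rw [abs_of_nonneg g3, ← hnd] at h3
    have h4 : (3 * (k : ℤ) + 8) * n ≤ 3 * ((k : ℤ) + 1) * F (A G) univ σ := by
      rcases le_total (F (A G) univ σ0) (2 * n) with h5 | h5
      · rw [min_eq_left h5] at g2
        have h6 := mul_le_mul_of_nonneg_left g2 hk3
        linarith
      · rw [min_eq_right h5] at g2
        have h6 := mul_le_mul_of_nonneg_left g2 hk3
        nlinarith
    have h5 := mul_le_mul_of_nonneg_left h3 hk3
    rcases Nat.even_or_odd (Fintype.card V) with hp | hp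
    · -- even order: exactly balanced
      have h6 : ∑ x, σ x = 0 := by
        obtain ⟨c, hc⟩ := sum_parity g1
        obtain ⟨e, he⟩ := hp
        rw [he] at hc
        push_cast at hc
        omega
      rw [h6, mul_zero, add_zero] at h5
      have h7 : 0 ≤ 2 * (k : ℤ) * n := by positivity
      linarith
    · have h6 : 3 * (k + 1) ≤ Fintype.card V := by
        by_contra hc
        exact hsmall ⟨hp, by omega⟩
      have h7 : 3 * ((k : ℤ) + 1) ≤ n := by
        rw [hnd]
        exact_mod_cast h6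
      have h8 : 3 * ((k : ℤ) + 1) * (2 * k * ∑ x, σ x) ≤ 3 * ((k : ℤ) + 1) * (2 * k * 1) :=
        mul_le_mul_of_nonneg_left (mul_le_mul_of_nonneg_left g4 (by positivity)) hk3
      have h9 : 2 * (k : ℤ) * (3 * ((k : ℤ) + 1)) ≤ 2 * k * n :=
        mul_le_mul_of_nonneg_left h7 (by positivity)
      linarith

lemma ratio_le {k : ℕ} (hk : 0 < k) (c : ℝ) {V : Type} [Fintype V] (G : SimpleGraph V)
    (h : InClass k G)
    (hc : 3 * ((k : ℝ) + 1) * (8 * (judicious G : ℝ)) ≤
      3 * ((k : ℝ) + 1) * (Fintype.card V * k) - c * Fintype.card V) :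
    (judicious G : ℝ) / (numEdges G : ℝ) ≤ 1 / 4 - c / (12 * k * (k + 1)) := by
  have h4 := edges_ad G h
  have h5 : 0 < numEdges G := h.2.2
  set m : ℕ := numEdges G
  set g : ℕ := judicious G
  set n : ℕ := Fintype.card V
  have hm : (0 : ℝ) < m := by exact_mod_cast h5
  have h4r : 2 * (m : ℝ) = n * k := by exact_mod_cast h4
  have hkr : (0 : ℝ) < k := by exact_mod_cast hk
  rw [div_le_iff₀ hm]
  have h7 : (1 / 4 - c / (12 * k * (k + 1))) * m =
      (3 * (k + 1) * (n * k) - c * n) / (24 * (k + 1)) := by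
    have hm2 : (m : ℝ) = n * k / 2 := by linarith
    rw [hm2]
    field_simp
    ring
  rw [h7, le_div_iff₀ (by positivity)]
  linarith

lemma le_ratio {k : ℕ} (hk : 0 < k) (c : ℝ) {V : Type} [Fintype V] (G : SimpleGraph V)
    (h : InClass k G)
    (hc : 3 * ((k : ℝ) + 1) * (Fintype.card V * k) - c * Fintype.card V ≤
      3 * ((k : ℝ) + 1) * (8 * (judicious G : ℝ))) :
    1 / 4 - c / (12 * k * (k + 1)) ≤ (judicious G : ℝ) / (numEdges G : ℝ) := by
  have h4 := edges_ad G h
  have h5 : 0 < numEdges G := h.2.2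
  set m : ℕ := numEdges G
  set g : ℕ := judicious G
  set n : ℕ := Fintype.card V
  have hm : (0 : ℝ) < m := by exact_mod_cast h5
  have h4r : 2 * (m : ℝ) = n * k := by exact_mod_cast h4
  have hkr : (0 : ℝ) < k := by exact_mod_cast hk
  rw [le_div_iff₀ hm]
  have h7 : (1 / 4 - c / (12 * k * (k + 1))) * m =
      (3 * (k + 1) * (n * k) - c * n) / (24 * (k + 1)) := by
    have hm2 : (m : ℝ) = n * k / 2 := by linarith
    rw [hm2]
    field_simp
    ring
  rw [h7, div_le_iff₀ (by positivity)]
  linarith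

lemma upper_ratio {k : ℕ} (hk : 3000 ≤ k ∨ (Even k ∧ 1000 ≤ k)) {r : ℝ} (hr : r ∈ ratios k) :
    r ≤ val k := by
  obtain ⟨V, hV, G, hG, rfl⟩ := hr
  unfold val
  rcases Nat.even_or_odd k with hp | hp
  · rw [if_pos hp]
    apply ratio_le (by omega) _ G hG
    have := upper_even (by omega) hp G hG
    exact_mod_cast this
  · rw [if_neg (Nat.not_even_iff_odd.mpr hp)]
    have h3 : 3000 ≤ k := by
      rcases hk with h | h
      · exact h
      · exact absurd h.1 (Nat.not_even_iff_odd.mpr hp)
    apply ratio_le (by omega) _ G hG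
    have := upper_odd h3 hp G hG
    exact_mod_cast this

lemma ring_class {k : ℕ} (hk : 3 ≤ k) : InClass k (ring k) := by
  unfold InClass
  have hdeg : ∀ v, @SimpleGraph.degree _ (ring k) v (@SimpleGraph.neighborSetFintype _ (ring k) _
      (fun a b => Classical.propDecidable _) v) = k := by
    intro v
    have := ring_deg hk v
    unfold ad at this
    rw [← Finset.card_filter] at this
    rw [← SimpleGraph.card_neighborFinset_eq_degree]
    refine Eq.trans ?_ this
    congr 1
    ext y
    simp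
  exact ⟨hdeg, ring_cliqueFree hk, pos_of_reg (by omega) (ring k) hdeg⟩

lemma ring_ratio {k : ℕ} (hk : 3 ≤ k) :
    val k ≤ (judicious (ring k) : ℝ) / (numEdges (ring k) : ℝ) := by
  have hcls := ring_class hk
  have hc : Fintype.card (Fin 3 × Fin (k + 1)) = 3 * (k + 1) := by simp
  have hcz : (Fintype.card (Fin 3 × Fin (k + 1)) : ℤ) = 3 * ((k : ℤ) + 1) := by
    rw [hc]; push_cast; ring
  have hcr : (Fintype.card (Fin 3 × Fin (k + 1)) : ℝ) = 3 * ((k : ℝ) + 1) := by
    rw [hc]; push_cast; ring
  unfold val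
  rcases Nat.even_or_odd k with hp | hp
  · rw [if_pos hp]
    apply le_ratio (by omega) _ _ hcls
    have h1 := judicious_lower (ring k) (fun v => ring_deg hk v) ((k : ℤ) + 8) (by
      intro σ hσ
      have h2 := ring_upper hk σ hσ
      have h3 : (1 : ℤ) ≤ |∑ x, σ x| := by
        obtain ⟨c, hc'⟩ := sum_parity hσ
        rw [hcz] at hc'
        obtain ⟨e, he⟩ := hp
        have h4 : ∑ x, σ x ≠ 0 := by
          rw [hc', he]
          push_cast
          omega
        exact Int.one_le_abs h4
      have h4 : (2 * (k : ℤ)) * 1 ≤ 2 * k * |∑ x, σ x| :=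
        mul_le_mul_of_nonneg_left h3 (by positivity)
      have hq : 6 * (((k + 1) / 2 : ℕ) : ℤ) + 8 = 3 * k + 8 := by
        obtain ⟨K, hK⟩ := hp
        omega
      rw [hq] at h2
      have hFA : F (fun x y => (ad (ring k) x y : ℤ)) univ σ = F (A (ring k)) univ σ := rfl
      rw [hFA] at h2
      linarith)
    rw [hcz] at h1
    have h1r : 3 * ((k : ℝ) + 1) * k - (k + 8) ≤ 8 * (judicious (ring k) : ℝ) := by
      exact_mod_cast h1
    rw [hcr]
    have h5 := mul_le_mul_of_nonneg_left h1r (show (0 : ℝ) ≤ 3 * ((k : ℝ) + 1) by positivity)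
    linarith
  · rw [if_neg (Nat.not_even_iff_odd.mpr hp)]
    apply le_ratio (by omega) _ _ hcls
    have h1 := judicious_lower (ring k) (fun v => ring_deg hk v) (3 * (k : ℤ) + 11) (by
      intro σ hσ
      have h2 := ring_upper hk σ hσ
      have h3 : (0 : ℤ) ≤ 2 * k * |∑ x, σ x| := by positivity
      have hq : 6 * (((k + 1) / 2 : ℕ) : ℤ) + 8 = 3 * k + 11 := by
        obtain ⟨K, hK⟩ := hp
        omega
      rw [hq] at h2
      have hFA : F (fun x y => (ad (ring k) x y : ℤ)) univ σ = F (A (ring k)) univ σ := rfl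
      rw [hFA] at h2
      linarith)
    rw [hcz] at h1
    have h1r : 3 * ((k : ℝ) + 1) * k - (3 * k + 11) ≤ 8 * (judicious (ring k) : ℝ) := by
      exact_mod_cast h1
    rw [hcr]
    have h5 := mul_le_mul_of_nonneg_left h1r (show (0 : ℝ) ≤ 3 * ((k : ℝ) + 1) by positivity)
    linarith

/-- The exact value of `d_k` for all `k ≥ 3000` and all even `k ≥ 1000`; the lower bound holds for
all `k ≥ 3`. -/
theorem result :
    (∀ k : ℕ, 3 ≤ k → val k ≤ d k) ∧
    (∀ k : ℕ, (3000 ≤ k ∨ (Even k ∧ 1000 ≤ k)) →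
      IsGreatest (ratios k) (val k) ∧ d k = val k) := by
  have hbdd : ∀ k, BddAbove (ratios k) := by
    intro k
    refine ⟨1, ?_⟩
    rintro r ⟨V, hV, G, hG, rfl⟩
    have h5 : (0 : ℝ) < numEdges G := by exact_mod_cast hG.2.2
    rw [div_le_one h5]
    exact_mod_cast judicious_le_edges G
  have hmem : ∀ k, 3 ≤ k → (judicious (ring k) : ℝ) / (numEdges (ring k) : ℝ) ∈ ratios k :=
    fun k hk => ⟨_, _, ring k, ring_class hk, rfl⟩
  constructor
  · intro k hk
    exact (ring_ratio hk).trans (le_csSup (hbdd k) (hmem k hk))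
  · intro k hk
    have h3 : 3 ≤ k := by omega
    have h1 : IsGreatest (ratios k) (val k) := by
      refine ⟨?_, fun r hr => upper_ratio hk hr⟩
      have h2 : (judicious (ring k) : ℝ) / (numEdges (ring k) : ℝ) = val k :=
        le_antisymm (upper_ratio hk (hmem k h3)) (ring_ratio h3)
      rw [← h2]
      exact hmem k h3
    exact ⟨h1, h1.csSup_eq⟩

end Pool.Agent.Results.MP_bb98d0_co.JudiciousLargeDegree
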